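import Pool.Agent.AvoidPath.NoCycle

/-!
Linear bound for the length of shift sequences to avoidable induced paths in graphs without an
induced cycle with `k + 2` vertices.
-/

open Pool.Agent.AvoidPath in
/-- If a finite graph with `n` vertices has no induced cycle with exactly `k + 2` vertices, then
every induced path `l` with `k` vertices can be transformed into an avoidable induced path by at
most `n - k - 1` shifts. -/
theorem Pool.Agent.Results.MP_906beb_lc.LinearWithoutShortCycle.result
    {V : Type} [Fintype V] (E : V → V → Prop) (hE : ∀ a b, E a b → E b a)
    (l : List V) (hl : IndPath E l)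
    (hfree : ∀ o, IndCycle E o → o.length ≠ l.length + 2) :
    ∃ (m : ℕ) (l' : List V), ShiftSeq E m l l' ∧ Avoidable E l' ∧
      m ≤ Fintype.card V - l.length - 1 :=
  nocycle_main E hE l hl hfree
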