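import Pool.Agent.Helper4AV.Star

/-!
Polynomial bound for the length of shift sequences to avoidable induced paths in graphs without
an induced star with `t` leaves.
-/

open Pool.Agent.AvoidPath in
/-- Let `t ≥ 3`. If a finite graph with `n` vertices has no induced star with `t` leaves, then
every induced path `l` with `k` vertices can be transformed into an avoidable induced path by at
most `(k + 1) (n + 1) ^ (t - 2)` shifts. -/
theorem Pool.Agent.Results.MP_906beb_lc.PolynomialStarFree.result
    {V : Type} [Fintype V] (E : V → V → Prop) (hE : ∀ a b, E a b → E b a) (t : ℕ) (ht : 3 ≤ t)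
    (hstar : ¬ ∃ (c : V) (S : Finset V), S.card = t ∧ ¬ E c c ∧ (∀ s ∈ S, E c s) ∧
      ∀ s ∈ S, ∀ s' ∈ S, ¬ E s s')
    (l : List V) (hl : IndPath E l) :
    ∃ (m : ℕ) (l' : List V), ShiftSeq E m l l' ∧ Avoidable E l' ∧
      m ≤ (l.length + 1) * (Fintype.card V + 1) ^ (t - 2) :=
  Pool.Agent.Helper4AV.starFree_main E hE t ht hstar l hl
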