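import Pool.Agent.Helper4AV.Tree

/-!
Polynomial bound for the length of shift sequences to avoidable induced paths in graphs of
bounded tree-independence number.
-/

open Pool.Agent.AvoidPath Pool.Agent.Helper4AV in
/-- Let `m ≥ 1`. If a finite graph with `n` vertices has a tree decomposition in which every bag
has independence number at most `m`, then every induced path `l` with `k` vertices can be
transformed into an avoidable induced path by at most `(k + 1) (n + 1) ^ m` shifts. -/
theorem Pool.Agent.Results.MP_906beb_lc.PolynomialTreeIndependence.result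
    {V : Type} [Fintype V] (E : V → V → Prop) (hE : ∀ a b, E a b → E b a)
    {ι : Type} (T : SimpleGraph ι) (bag : ι → Set V) (hT : TreeDec E T bag)
    (m : ℕ) (hm : 1 ≤ m)
    (hind : ∀ (i : ι) (I : Finset V), (∀ a ∈ I, a ∈ bag i) →
      (∀ a ∈ I, ∀ b ∈ I, ¬ E a b) → I.card ≤ m)
    (l : List V) (hl : IndPath E l) :
    ∃ (s : ℕ) (l' : List V), ShiftSeq E s l l' ∧ Avoidable E l' ∧
      s ≤ (l.length + 1) * (Fintype.card V + 1) ^ m :=
  Pool.Agent.Helper4AV.treeInd_main E hE T bag hT m hm hind l hl
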