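import Pool.Agent.AvoidPath.Step

/-!
Subexponential bound for the length of shift sequences to avoidable induced paths.
-/

open Pool.Agent.AvoidPath in
/-- In a finite graph with `n` vertices (adjacency relation `E`, loops allowed) every induced path
`l` with `k` vertices can be transformed into an avoidable induced path by at most
`exp (π √(2 (n - k - 2) / 3))` shifts. -/
theorem Pool.Agent.Results.MP_906beb_lc.SubexponentialShiftSequence.result
    {V : Type} [Fintype V] (E : V → V → Prop) (hE : ∀ a b, E a b → E b a)
    (l : List V) (hl : IndPath E l) :
    ∃ (m : ℕ) (l' : List V), ShiftSeq E m l l' ∧ Avoidable E l' ∧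
      (m : ℝ) ≤ Real.exp
        (Real.pi * Real.sqrt (2 * ((Fintype.card V - l.length - 2 : ℕ) : ℝ) / 3)) :=
  main_bound E hE l hl
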